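import Mathlib
import Pool.Agent.T6.H52.BA.R1

set_option autoImplicit false

/-! Module R2 (analytic part): Moebius sums over the integers prime to `q`. -/

namespace Pool.Agent.T6.H57.BA

open Finset ArithmeticFunction
open Pool.Agent.T6.H52.BA

/-- `∑ μ(d) χ(d) / d^a`. -/
noncomputable def MX (χ : ℕ → ℝ) (a : ℕ) : ℝ := ∑' d : ℕ, (moebius d : ℝ) * χ d / (d : ℝ) ^ a

theorem termX_le {χ : ℕ → ℝ} (hχ : ∀ d, |χ d| ≤ 1) {a : ℕ} (ha : 2 ≤ a) (d : ℕ) :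
    ‖(moebius d : ℝ) * χ d / (d : ℝ) ^ a‖ ≤ 1 / (d : ℝ) ^ 2 := by
  have h1 : (moebius d : ℝ) * χ d / (d : ℝ) ^ a = (moebius d : ℝ) / (d : ℝ) ^ a * χ d := by ring
  rw [h1, norm_mul]
  calc _ ≤ 1 / (d : ℝ) ^ 2 * 1 :=
        mul_le_mul (term_le ha d) (hχ d) (abs_nonneg _) (by positivity)
    _ = _ := mul_one _

theorem summX {χ : ℕ → ℝ} (hχ : ∀ d, |χ d| ≤ 1) {a : ℕ} (ha : 2 ≤ a) :
    Summable fun d : ℕ => (moebius d : ℝ) * χ d / (d : ℝ) ^ a :=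
  Summable.of_norm_bounded zeta2.summable (termX_le hχ ha)

theorem MX_le {χ : ℕ → ℝ} (hχ : ∀ d, |χ d| ≤ 1) {a : ℕ} (ha : 2 ≤ a) : MX χ a ≤ 2 := by
  have h1 : MX χ a ≤ ∑' n : ℕ, 1 / (n : ℝ) ^ 2 := by
    refine (summX hχ ha).tsum_le_tsum (fun d => ?_) zeta2.summable
    exact (le_abs_self _).trans (termX_le hχ ha d)
  rw [zeta2.tsum_eq] at h1
  linarith [pi_lt]

theorem MX_nonneg {χ : ℕ → ℝ} (hχ : ∀ d, |χ d| ≤ 1) (h1 : χ 1 = 1) {a : ℕ} (ha : 2 ≤ a) :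
    0 ≤ MX χ a := by
  have h1 : MX χ a = 1 + ∑' d : ℕ, (if d = 1 then 0 else (moebius d : ℝ) * χ d / (d : ℝ) ^ a) := by
    have := (summX hχ ha).tsum_eq_add_tsum_ite 1
    rw [MX, this]
    simp [h1]
  have h2 : ∑' n : ℕ, 1 / (n : ℝ) ^ 2 = 1 + ∑' d : ℕ, (if d = 1 then 0 else 1 / (d : ℝ) ^ 2) := by
    have := zeta2.summable.tsum_eq_add_tsum_ite 1
    rw [this]
    simp
  have hs2 : Summable fun d : ℕ => (if d = 1 then (0 : ℝ) else 1 / (d : ℝ) ^ 2) := by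
    refine Summable.of_nonneg_of_le (fun d => ?_) (fun d => ?_) zeta2.summable
    · split_ifs <;> positivity
    · split_ifs
      · positivity
      · exact le_rfl
  have h3 : ‖∑' d : ℕ, (if d = 1 then (0 : ℝ) else (moebius d : ℝ) * χ d / (d : ℝ) ^ a)‖ ≤
      ∑' d : ℕ, (if d = 1 then (0 : ℝ) else 1 / (d : ℝ) ^ 2) := by
    refine tsum_of_norm_bounded hs2.hasSum (fun d => ?_)
    split_ifs
    · simp
    · exact termX_le hχ ha d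
  rw [Real.norm_eq_abs] at h3
  have h4 := neg_abs_le
    (∑' d : ℕ, (if d = 1 then (0 : ℝ) else (moebius d : ℝ) * χ d / (d : ℝ) ^ a))
  rw [zeta2.tsum_eq] at h2
  have := pi_lt
  linarith

theorem mainX {a : ℕ} (ha : 3 ≤ a) {χ : ℕ → ℝ} (hχ : ∀ d, |χ d| ≤ 1) {C1 : ℝ} (hC1 : 0 ≤ C1)
    (A : ℕ → ℝ) {c0 : ℝ} {l : ℝ} (hl0 : 0 < l) (Y : ℕ) (hA : ∀ d, Y < d → A d = 0)
    (hbound : ∀ d : ℕ, 1 ≤ d → |A d - χ d * (c0 * ((Y : ℝ) / d) ^ a)| ≤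
      C1 * ((Y : ℝ) / d / l) ^ (a - 1)) :
    |∑ d ∈ Icc 1 Y, (moebius d : ℝ) * A d - c0 * MX χ a * (Y : ℝ) ^ a| ≤
      2 * C1 * ((Y : ℝ) / l) ^ (a - 1) := by
  have hz : ∀ d ∉ Icc 1 Y, (moebius d : ℝ) * A d = 0 := by
    intro d hd
    rw [mem_Icc, not_and_or, not_le, not_le] at hd
    rcases hd with hd | hd
    · have : d = 0 := by omega
      subst this
      simp
    · rw [hA d hd]
      ring
  have h1 : ∑ d ∈ Icc 1 Y, (moebius d : ℝ) * A d = ∑' d : ℕ, (moebius d : ℝ) * A d := by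
    rw [tsum_eq_sum (s := Icc 1 Y)]
    exact hz
  have hsum0 : Summable fun d : ℕ => (moebius d : ℝ) * A d :=
    summable_of_ne_finset_zero (s := Icc 1 Y) hz
  have hterm : ∀ d : ℕ, (moebius d : ℝ) * (χ d * (c0 * ((Y : ℝ) / d) ^ a)) =
      (c0 * (Y : ℝ) ^ a) * ((moebius d : ℝ) * χ d / (d : ℝ) ^ a) := by
    intro d
    rw [div_pow]
    ring
  have h2 : c0 * MX χ a * (Y : ℝ) ^ a =
      ∑' d : ℕ, (moebius d : ℝ) * (χ d * (c0 * ((Y : ℝ) / d) ^ a)) := by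
    simp only [hterm]
    rw [tsum_mul_left, MX]
    ring
  have hsum1 : Summable fun d : ℕ => (moebius d : ℝ) * (χ d * (c0 * ((Y : ℝ) / d) ^ a)) := by
    simp only [hterm]
    exact (summX hχ (by omega)).mul_left _
  rw [h1, h2, ← hsum0.tsum_sub hsum1]
  set C2 : ℝ := C1 * ((Y : ℝ) / l) ^ (a - 1) with hC2
  have hC20 : 0 ≤ C2 := by positivity
  have h3 : ‖∑' d : ℕ, ((moebius d : ℝ) * A d -
      (moebius d : ℝ) * (χ d * (c0 * ((Y : ℝ) / d) ^ a)))‖ ≤ C2 * (Real.pi ^ 2 / 6) := by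
    refine tsum_of_norm_bounded (zeta2.mul_left C2) (fun d => ?_)
    rcases Nat.eq_zero_or_pos d with rfl | hd
    · simp
    · have hd1 : (1 : ℝ) ≤ d := by exact_mod_cast hd
      have hd0 : (0 : ℝ) < d := by linarith
      rw [← mul_sub, norm_mul, Real.norm_eq_abs, Real.norm_eq_abs]
      have h5 : ((Y : ℝ) / d / l) ^ (a - 1) ≤ ((Y : ℝ) / l) ^ (a - 1) * (1 / (d : ℝ) ^ 2) := by
        have e1 : (Y : ℝ) / d / l = ((Y : ℝ) / l) * (1 / d) := by field_simp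
        rw [e1, mul_pow, one_div_pow]
        gcongr
        omega
      calc |(moebius d : ℝ)| * |A d - χ d * (c0 * ((Y : ℝ) / d) ^ a)|
          ≤ 1 * (C1 * ((Y : ℝ) / d / l) ^ (a - 1)) :=
            mul_le_mul (mu_abs d) (hbound d hd) (abs_nonneg _) zero_le_one
        _ ≤ 1 * (C1 * (((Y : ℝ) / l) ^ (a - 1) * (1 / (d : ℝ) ^ 2))) := by
            gcongr
        _ = C2 * (1 / (d : ℝ) ^ 2) := by rw [hC2]; ring
  rw [Real.norm_eq_abs] at h3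
  refine h3.trans ?_
  have := pi_lt
  rw [hC2] at hC20 ⊢
  nlinarith

end Pool.Agent.T6.H57.BA
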