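import Mathlib
import Pool.Agent.T6.H52.BA.R3

set_option autoImplicit false

/-! Module R2 (combinatorial part): Moebius inversion in a congruence class and a cone. -/

namespace Pool.Agent.T6.H57.BA

open Finset Module Matrix
open Pool.Agent.H548.WM (ht bx mem_bx Rep le_ht le_ht' ht_le exists_ht)
open Pool.Agent.H548.BL (lat mem_lat)
open Pool.Agent.T6.H52.BA

/-- The vectors of the lattice in a congruence class and in a cone. -/
def Cl {k N n : ℕ} (w : Fin k → Fin N → ℤ) (f : Fin n → Fin N → ℤ) (σ : Fin n → Bool) (q : ℕ)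
    (r v : Fin N → ℤ) : Prop :=
  v ∈ lat w ∧ (∀ j, (q : ℤ) ∣ v j - r j) ∧ ∀ i, (0 ≤ f i ⬝ᵥ v ↔ σ i = true)

open Classical in
/-- The nonzero ones in a box. -/
noncomputable def nc {k N n : ℕ} (w : Fin k → Fin N → ℤ) (f : Fin n → Fin N → ℤ)
    (σ : Fin n → Bool) (q : ℕ) (r : Fin N → ℤ) (Y : ℕ) : Finset (Fin N → ℤ) :=
  (bx N Y).filter fun v => Cl w f σ q r v ∧ v ≠ 0

variable {k N n : ℕ} {w : Fin k → Fin N → ℤ} {f : Fin n → Fin N → ℤ} {σ : Fin n → Bool} {q : ℕ}

theorem mem_nc {r v : Fin N → ℤ} {Y : ℕ} :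
    v ∈ nc w f σ q r Y ↔ ht v ≤ Y ∧ Cl w f σ q r v ∧ v ≠ 0 := by
  classical
  unfold nc
  rw [mem_filter, mem_bx]

theorem Cl_smul {r v : Fin N → ℤ} {d : ℕ} (hd : 1 ≤ d) {e : ℤ} (he : (q : ℤ) ∣ d * e - 1) :
    Cl w f σ q r ((d : ℤ) • v) ↔ Cl w f σ q (e • r) v := by
  have hd0 : (d : ℤ) ≠ 0 := by exact_mod_cast (by omega : d ≠ 0)
  have hdp : (0 : ℤ) < d := by exact_mod_cast hd
  unfold Cl
  rw [lat_smul hd0]
  refine and_congr_right fun _ => and_congr ?_ ?_
  · refine forall_congr' fun j => ?_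
    rw [Pi.smul_apply, Pi.smul_apply, smul_eq_mul, smul_eq_mul]
    constructor
    · intro h
      have h1 : v j - e * r j = e * (d * v j - r j) - (d * e - 1) * v j := by ring
      rw [h1]
      exact dvd_sub (h.mul_left _) (he.mul_right _)
    · intro h
      have h1 : d * v j - r j = d * (v j - e * r j) + (d * e - 1) * r j := by ring
      rw [h1]
      exact dvd_add (h.mul_left _) (he.mul_right _)
  · refine forall_congr' fun i => ?_
    rw [dotProduct_smul, smul_eq_mul, mul_nonneg_iff_of_pos_left hdp]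

open Classical in
theorem nc_div {r : Fin N → ℤ} (Y : ℕ) {d : ℕ} (hd : 1 ≤ d) {e : ℤ}
    (he : (q : ℤ) ∣ d * e - 1) :
    (nc w f σ q (e • r) (Y / d)).card = ((nc w f σ q r Y).filter fun v => d ∣ gd v).card := by
  have hd0 : (d : ℤ) ≠ 0 := by exact_mod_cast (by omega : d ≠ 0)
  refine Finset.card_bij (fun v _ => (d : ℤ) • v) ?_ ?_ ?_
  · intro v hv
    rw [mem_nc] at hv
    rw [mem_filter, mem_nc]
    refine ⟨⟨?_, (Cl_smul hd he).2 hv.2.1, ?_⟩, ?_⟩
    · apply ht_le
      intro i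
      rw [Pi.smul_apply, smul_eq_mul, abs_mul, Nat.abs_cast]
      have h1 := le_ht' v i
      have h2 : d * ht v ≤ Y := by
        calc d * ht v ≤ d * (Y / d) := Nat.mul_le_mul_left d hv.1
          _ ≤ Y := Nat.mul_div_le Y d
      calc (d : ℤ) * |v i| ≤ d * (ht v : ℤ) := by
            apply mul_le_mul_of_nonneg_left h1 (by positivity)
        _ ≤ Y := by exact_mod_cast h2
    · exact smul_ne_zero hd0 hv.2.2
    · rw [dvd_gd]
      intro i
      rw [Pi.smul_apply, smul_eq_mul]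
      exact dvd_mul_right _ _
  · intro u _ v _ h
    exact smul_right_injective _ hd0 h
  · intro v hv
    rw [mem_filter, mem_nc] at hv
    obtain ⟨⟨hv1, hv2, hv3⟩, hv4⟩ := hv
    rw [dvd_gd] at hv4
    choose u hu using hv4
    have huv : (d : ℤ) • u = v := by
      funext i
      rw [Pi.smul_apply, smul_eq_mul]
      exact (hu i).symm
    refine ⟨u, ?_, huv⟩
    rw [mem_nc]
    refine ⟨?_, ?_, ?_⟩
    · apply ht_le
      intro i
      have h1 := le_ht v i
      rw [hu i, Int.natAbs_mul, Int.natAbs_natCast] at h1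
      rw [Int.abs_eq_natAbs]
      have h2 : (u i).natAbs ≤ Y / d := by
        rw [Nat.le_div_iff_mul_le (by omega), mul_comm]
        exact h1.trans hv1
      exact_mod_cast h2
    · rw [← huv] at hv2
      exact (Cl_smul hd he).1 hv2
    · rintro rfl
      apply hv3
      rw [← huv, smul_zero]

open Classical in
/-- No vectors divisible by `d` when `d` has a common factor with `q`. -/
theorem nc_not_coprime {r : Fin N → ℤ} (hr : ∀ p : ℕ, p.Prime → p ∣ q → ¬ ∀ j, (p : ℤ) ∣ r j)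
    (Y : ℕ) {d : ℕ} (hd : ¬ d.Coprime q) :
    ((nc w f σ q r Y).filter fun v => d ∣ gd v).card = 0 := by
  rw [card_eq_zero, Finset.eq_empty_iff_forall_notMem]
  intro v hv
  rw [mem_filter, mem_nc] at hv
  obtain ⟨p, hp, hpd, hpq⟩ := Nat.Prime.not_coprime_iff_dvd.1 hd
  apply hr p hp hpq
  intro j
  have h1 := (dvd_gd.1 (hpd.trans hv.2)) j
  have h2 : (p : ℤ) ∣ v j - r j := (Int.natCast_dvd_natCast.2 hpq).trans (hv.1.2.1.2.1 j)
  have h3 : r j = v j - (v j - r j) := by ring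
  rw [h3]
  exact dvd_sub h1 h2

open Classical in
/-- Moebius inversion. -/
theorem moebX (r : Fin N → ℤ) (Y : ℕ) :
    ∑ d ∈ Icc 1 Y, ArithmeticFunction.moebius d *
      (((nc w f σ q r Y).filter fun v => d ∣ gd v).card : ℤ) =
      (((nc w f σ q r Y).filter fun v => gd v = 1).card : ℤ) := by
  have h1 : ∀ d ∈ Icc 1 Y, ArithmeticFunction.moebius d *
      (((nc w f σ q r Y).filter fun v => d ∣ gd v).card : ℤ) =
      ∑ v ∈ nc w f σ q r Y, if d ∣ gd v then ArithmeticFunction.moebius d else 0 := by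
    intro d hd
    rw [← Finset.sum_filter, Finset.sum_const, nsmul_eq_mul, mul_comm]
  rw [Finset.sum_congr rfl h1, Finset.sum_comm]
  have h2 : ∀ v ∈ nc w f σ q r Y,
      (∑ d ∈ Icc 1 Y, if d ∣ gd v then ArithmeticFunction.moebius d else 0) =
      if gd v = 1 then 1 else 0 := by
    intro v hv
    rw [mem_nc] at hv
    rw [← sum_mu, ← Finset.sum_filter]
    apply Finset.sum_congr _ fun _ _ => rfl
    ext d
    rw [mem_filter, mem_Icc, Nat.mem_divisors]
    have hg := gd_ne hv.2.2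
    constructor
    · rintro ⟨-, h⟩
      exact ⟨h, hg⟩
    · rintro ⟨h, -⟩
      exact ⟨⟨Nat.pos_of_dvd_of_pos h (by omega),
        (Nat.le_of_dvd (by omega) h).trans ((gd_le hv.2.2).trans hv.1)⟩, h⟩
  rw [Finset.sum_congr rfl h2, Finset.sum_boole]

end Pool.Agent.T6.H57.BA
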