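import Mathlib
import Pool.Agent.T6.H57.BA.R2b

set_option autoImplicit false

/-! Module R2 (lattice part): the vectors of a class and of a cone in the lattice `LL w`. -/

namespace Pool.Agent.T6.H57.BA

open Finset Module Matrix
open Pool.Agent.H548.WM (ht bx mem_bx Rep le_ht le_ht' ht_le exists_ht)
open Pool.Agent.H548.BL (lat mem_lat rc orth mem_orth rc_dot norm_rc)
open Pool.Agent.T6.H52.BA

variable {k N n : ℕ} {w : Fin k → Fin N → ℤ} {f : Fin n → Fin N → ℤ} {σ : Fin n → Bool} {q : ℕ}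

/-- The linear forms on the space. -/
noncomputable def FF (w : Fin k → Fin N → ℤ) (f : Fin n → Fin N → ℤ) (i : Fin n) :
    orth w →ₗ[ℝ] ℝ where
  toFun e := rc (f i) ⬝ᵥ e.1
  map_add' := by
    intro a b
    rw [Submodule.coe_add, dotProduct_add]
  map_smul' := by
    intro c a
    rw [Submodule.coe_smul, dotProduct_smul]
    rfl

theorem FF_apply (i : Fin n) (e : orth w) : FF w f i e = rc (f i) ⬝ᵥ e.1 := rfl

theorem dict {u0 : Fin N → ℤ} (hq : 1 ≤ q) (hu0 : u0 ∈ lat w) {e : orth w} {v : Fin N → ℤ}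
    (he : e.1 = (q : ℝ)⁻¹ • (rc v - rc u0)) :
    ‖e + (q : ℝ)⁻¹ • (⟨rc u0, rc_mem hu0⟩ : orth w)‖ = ht v / q ∧
      ∀ i, (0 ≤ FF w f i (e + (q : ℝ)⁻¹ • (⟨rc u0, rc_mem hu0⟩ : orth w)) ↔ 0 ≤ f i ⬝ᵥ v) := by
  have hq0 : (0 : ℝ) < q := by exact_mod_cast hq
  have h1 : (e + (q : ℝ)⁻¹ • (⟨rc u0, rc_mem hu0⟩ : orth w) : orth w).1 = (q : ℝ)⁻¹ • rc v := by
    rw [Submodule.coe_add, Submodule.coe_smul, he, ← smul_add, sub_add_cancel]
  constructor
  · rw [Submodule.coe_norm, h1, norm_smul, norm_rc, Real.norm_eq_abs,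
      abs_of_pos (inv_pos.2 hq0), div_eq_inv_mul]
  · intro i
    rw [FF_apply, h1, dotProduct_smul, rc_dot, smul_eq_mul,
      mul_nonneg_iff_of_pos_left (inv_pos.2 hq0), Int.cast_nonneg_iff]

open Classical in
theorem ncard_cl {r u0 : Fin N → ℤ} (hq : 1 ≤ q) (hu0 : u0 ∈ lat w)
    (hr : ∀ j, (q : ℤ) ∣ u0 j - r j) {t : ℝ} (ht0 : 0 ≤ t) :
    {e : orth w | e ∈ LL w ∧ ‖e + (q : ℝ)⁻¹ • (⟨rc u0, rc_mem hu0⟩ : orth w)‖ ≤ t / q ∧
      ∀ i, (0 ≤ FF w f i (e + (q : ℝ)⁻¹ • (⟨rc u0, rc_mem hu0⟩ : orth w)) ↔ σ i = true)}.ncard =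
      ((bx N ⌊t⌋₊).filter fun v => Cl w f σ q r v).card := by
  have hq0 : (0 : ℝ) < q := by exact_mod_cast hq
  have hqz : (q : ℤ) ≠ 0 := by exact_mod_cast (by omega : q ≠ 0)
  rw [← Set.ncard_coe_finset]
  symm
  refine Set.ncard_congr (fun v hv => ⟨(q : ℝ)⁻¹ • (rc v - rc u0), (orth w).smul_mem _
    ((orth w).sub_mem (rc_mem (mem_filter.1 (mem_coe.1 hv)).2.1) (rc_mem hu0))⟩) ?_ ?_ ?_
  · intro v hv
    rw [mem_coe, mem_filter, mem_bx] at hv
    obtain ⟨hv1, hv2, hv3, hv4⟩ := hv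
    have hd := dict (f := f) (e := ⟨(q : ℝ)⁻¹ • (rc v - rc u0), (orth w).smul_mem _
      ((orth w).sub_mem (rc_mem hv2) (rc_mem hu0))⟩) hq hu0 rfl
    refine ⟨?_, ?_, ?_⟩
    · rw [mem_LL]
      have h1 : ∀ j, (q : ℤ) ∣ v j - u0 j := fun j => by
        have h2 : v j - u0 j = (v j - r j) - (u0 j - r j) := by ring
        rw [h2]
        exact dvd_sub (hv3 j) (hr j)
      choose z hz using h1
      have hz' : (q : ℤ) • z = v - u0 := by
        funext j
        rw [Pi.smul_apply, smul_eq_mul, Pi.sub_apply, hz j]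
      refine ⟨z, ?_, ?_⟩
      · rw [← lat_smul hqz, hz']
        exact sub_mem hv2 hu0
      · show rc z = (q : ℝ)⁻¹ • (rc v - rc u0)
        funext j
        have h3 := congrArg (Int.cast : ℤ → ℝ) (hz j)
        push_cast at h3
        simp only [rc, Pi.smul_apply, Pi.sub_apply, smul_eq_mul]
        rw [h3, inv_mul_cancel_left₀ hq0.ne']
    · rw [hd.1]
      have : (ht v : ℝ) ≤ t := (Nat.le_floor_iff ht0).1 hv1
      gcongr
    · intro i
      rw [hd.2 i]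
      exact hv4 i
  · intro u v hu hv h
    have h1 := Subtype.mk.inj h
    have h2 := smul_right_injective _ (inv_ne_zero hq0.ne') h1
    exact rc_inj (sub_left_injective h2)
  · rintro e ⟨h1, h2, h3⟩
    obtain ⟨z, hz, hze⟩ := mem_LL.1 h1
    have hv : u0 + (q : ℤ) • z ∈ lat w := add_mem hu0 ((lat_smul hqz).2 hz)
    have he : e.1 = (q : ℝ)⁻¹ • (rc (u0 + (q : ℤ) • z) - rc u0) := by
      rw [← hze]
      funext j
      simp only [rc, Pi.smul_apply, Pi.sub_apply, Pi.add_apply, smul_eq_mul]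
      push_cast
      field_simp
      ring
    have hd := dict (f := f) hq hu0 he
    refine ⟨u0 + (q : ℤ) • z, ?_, Subtype.ext he.symm⟩
    rw [mem_coe, mem_filter, mem_bx]
    refine ⟨?_, hv, ?_, ?_⟩
    · rw [hd.1, div_le_div_iff_of_pos_right hq0] at h2
      exact Nat.le_floor h2
    · intro j
      rw [Pi.add_apply, Pi.smul_apply, smul_eq_mul]
      have h4 : u0 j + q * z j - r j = (u0 j - r j) + q * z j := by ring
      rw [h4]
      exact dvd_add (hr j) (dvd_mul_right _ _)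
    · intro i
      rw [← hd.2 i]
      exact h3 i

end Pool.Agent.T6.H57.BA
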